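import Pool.Agent.Zk38.AP.SIGB

/-!
# Products of few primes in almost all of `k` equal parts of every one of Oppermann's intervals

The `k`-fold Oppermann conjecture asks for `k` primes in each of the intervals `[n² - n, n²]` and `[n², n² + n]`, for all
large `n`. Here the intervals are divided into `k` parts of equal length, for any number `k ≤ n ^ β` of parts. We prove, for
ALL large `n` and all these `k`, that all but at most `k n ^ (-δ)` of the `k` parts contain the expected number (up to a
constant) of products of at most `r` primes, where `r = 5` for all `β < 1`, `r = 4` for `β = 0.92`, `r = 3` for `β = 0.55`; and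
that in all these parts every dense set of such numbers contains progressions of every length with a common difference at
most a power of `log n`. All this is proved for the parts of all arithmetic progressions with coprime first term and
difference inside `[n² - n, n² + n]`, uniformly.

Proof. The variance of the remainder term of the weighted sieve in short intervals (`Y882/SI/Eng` in the starting files,
uniform in the polynomial), Richert's weights, Szemerédi's theorem relative to the values without small prime factors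
(`Zk41/PY`, helper41). The case of the progressions `2 p k + 1` is due to helper48 (`Zk48/AP/SI`), whose proof is adapted here to
all progressions (`Zk38/AP/SIG`).
-/

set_option autoImplicit false

namespace Pool.Agent.Results.MP_1e9cc8_nt.AlmostAllBlocks

open Filter Finset

/-- Richert's constant `Λ_r = 1 + log ((3 ^ r + 1) / 4) / log 3 = r + 1 - log (4 / (1 + 3 ^ (-r))) / log 3`:
`Λ_3 = 2.771...`, `Λ_4 = 3.749...`, `Λ_5 = 4.741...`. -/
noncomputable def Lambda (r : ℕ) : ℝ := 1 + Real.log ((3 ^ r + 1) / 4) / Real.log 3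

open Classical in
/-- The indices `1 ≤ j ≤ H` for which `b + q j` is a product of at most `r` primes (with multiplicity), all of them at
least `z`. -/
noncomputable def goodTerms (r : ℕ) (z : ℝ) (q b H : ℕ) : Finset ℕ :=
  (Icc 1 H).filter (fun j => (b + q * j).primeFactorsList.length ≤ r ∧
    ∀ p : ℕ, p.Prime → p ∣ b + q * j → z ≤ p)

/-- The finite set `M` has at least `m` elements, and every subset of `M` which contains a proportion at least `κ` of the
elements of `M` contains an arithmetic progression of length `l` with common difference at most `D`. -/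
def IsRich (m : ℝ) (l : ℕ) (κ D : ℝ) (M : Finset ℕ) : Prop :=
  m ≤ M.card ∧ ∀ S ⊆ M, κ * M.card ≤ S.card → ∃ y d : ℕ, 1 ≤ d ∧ (d : ℝ) ≤ D ∧ ∀ i < l, y + i * d ∈ S

open Classical in
/-- The progression `a + q, …, a + q X` is divided into `k` blocks of `L = ⌊X / k⌋` consecutive terms (the block number `i < k`
consists of the terms `a + q (i L + j)`, `1 ≤ j ≤ L`). This is the number of the blocks for which the set of the good terms is
not rich. -/
noncomputable def exceptions (r : ℕ) (z m : ℝ) (l : ℕ) (κ D : ℝ) (q a X k : ℕ) : ℕ :=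
  ((range k).filter (fun i => ¬ IsRich m l κ D (goodTerms r z q (a + q * (i * (X / k))) (X / k)))).card

/-- **Theorem.** Let `r ≥ 1`, `ϑ > 0`, `0 < t ≤ 4 / 5`, `2 < ϑ t Λ_r`, `β ≥ 0` and `β + max(1, 2 t) < 2`. There are `c, δ > 0`, and for
all `l` and all `κ > 0` there is `B`, such that for all large `n` the following holds for every progression
`a + q, a + 2 q, …, a + X q` with `gcd (a, q) = 1` in `[n² - n, n² + n]` with `X ≥ n ^ ϑ`, and for all `1 ≤ k ≤ X ^ β`. Divide the
progression into `k` blocks of `L = ⌊X / k⌋` consecutive terms. For all but at most `k X ^ (-δ)` of the blocks at least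
`c (q / φ(q)) L / log n` of its terms are products of at most `r` primes `≥ n ^ (ϑ t / 4)`, and every set which contains a
proportion at least `κ` of these terms contains (in terms of the indices) an arithmetic progression of length `l` with
difference at most `(log n) ^ B`.

By the last line `(r, ϑ, t) = (5, 0.85, 1 / 2)`, `(4, 0.999, 0.535)`, `(3, 0.999, 0.723)` are allowed; then `β < 1`, `β < 0.93`,
`β < 0.554` are allowed. -/
theorem result :
    (∀ (r : ℕ) (ϑ t β : ℝ), 1 ≤ r → 0 < ϑ → 0 < t → t ≤ 4 / 5 → 2 < ϑ * (t * Lambda r) → 0 ≤ β →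
      β + max 1 (2 * t) < 2 → ∃ c δ : ℝ, 0 < c ∧ 0 < δ ∧ ∀ (l : ℕ) (κ : ℝ), 0 < κ → ∃ B : ℕ, ∀ᶠ n : ℕ in atTop,
        ∀ q a X k : ℕ, 0 < q → Nat.Coprime a q → n ^ 2 - n ≤ a + q → a + q * X ≤ n ^ 2 + n → (n : ℝ) ^ ϑ ≤ X →
          1 ≤ k → (k : ℝ) ≤ (X : ℝ) ^ β →
          (exceptions r ((n : ℝ) ^ (ϑ * t / 4)) (c * (((q : ℝ) / q.totient) * (((X / k : ℕ) : ℝ) / Real.log n))) l κ
            (Real.log n ^ B) q a X k : ℝ) ≤ k * (X : ℝ) ^ (-δ)) ∧
    2 < 0.85 * (1 / 2 * Lambda 5) ∧ 2 < 0.999 * (0.535 * Lambda 4) ∧ 2 < 0.999 * (0.723 * Lambda 3) := by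
  classical
  have h3 : 0 < Real.log 3 := Real.log_pos (by norm_num)
  refine ⟨fun r ϑ t β hr hϑ ht0 ht h hβ0 hβ => ?_, ?_, ?_, ?_⟩
  · obtain ⟨c, δ, hc, hδ, hmain⟩ := Pool.Agent.Zk38.AP.realBlocks r hr (ϑ / 2) t β (by positivity) ht0 ht
      (by
        have e : ϑ / 2 * (t * Pool.Agent.K3h19.RV.Lam r) = ϑ * (t * Lambda r) / 2 := by
          unfold Lambda Pool.Agent.K3h19.RV.Lam
          ring
        rw [e]
        linarith) hβ0 hβ
    refine ⟨c / 2, δ, by positivity, hδ, fun l κ hκ => ?_⟩
    obtain ⟨B, hB⟩ := hmain l κ hκ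
    refine ⟨2 * B, ?_⟩
    have hsq : Tendsto (fun n : ℕ => (n : ℝ) ^ 2) atTop atTop :=
      (tendsto_pow_atTop two_ne_zero).comp tendsto_natCast_atTop_atTop
    have hT := tendsto_natCast_atTop_atTop (R := ℝ)
    have v3 : ∀ᶠ n : ℕ in atTop, (3 : ℝ) ≤ Real.log n :=
      (Real.tendsto_log_atTop.comp hT).eventually_ge_atTop _
    filter_upwards [hsq.eventually hB, v3, eventually_ge_atTop 3] with n hn w3 w4 q a X k hq hqa _ hsz hX hk1 hkβ
    have hn3 : (3 : ℝ) ≤ n := by exact_mod_cast w4
    have hn0 : (0 : ℝ) < n := by linarith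
    have hlog : Real.log ((n : ℝ) ^ 2) = 2 * Real.log n := by
      rw [Real.log_pow]
      push_cast
      ring
    have hsz' : ((a + q * X : ℕ) : ℝ) ≤ 2 * (n : ℝ) ^ 2 := by
      have h1 : n ≤ n ^ 2 := Nat.le_self_pow two_ne_zero n
      have h2 : a + q * X ≤ 2 * n ^ 2 := by omega
      exact_mod_cast h2
    have hpow : ∀ y : ℝ, ((n : ℝ) ^ 2) ^ (y / 2) = (n : ℝ) ^ y := by
      intro y
      rw [← Real.rpow_natCast (n : ℝ) 2, ← Real.rpow_mul hn0.le]
      congr 1
      push_cast
      ring
    have hmain' := hn q a X k hq hqa hsz' (by rw [hpow]; exact hX) hk1 hkβ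
    rw [hlog, show ϑ / 2 * t / 4 = ϑ * t / 4 / 2 by ring, hpow] at hmain'
    refine le_trans ?_ hmain'
    have hsub : ((range k).filter (fun i => ¬ IsRich (c / 2 * (((q : ℝ) / q.totient) *
          (((X / k : ℕ) : ℝ) / Real.log n))) l κ (Real.log n ^ (2 * B))
          (goodTerms r ((n : ℝ) ^ (ϑ * t / 4)) q (a + q * (i * (X / k))) (X / k)))) ⊆
        ((range k).filter (fun i => ¬ Pool.Agent.Zk38.AP.Ric (c * (((q : ℝ) / q.totient) *
          (((X / k : ℕ) : ℝ) / (2 * Real.log n)))) l κ ((2 * Real.log n) ^ B)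
          (Pool.Agent.Zk38.AP.RG r ((n : ℝ) ^ (ϑ * t / 4)) q (a + q * (i * (X / k))) (X / k)))) := by
      intro i hi
      rw [mem_filter] at hi ⊢
      refine ⟨hi.1, fun hcon => hi.2 ?_⟩
      have e : goodTerms r ((n : ℝ) ^ (ϑ * t / 4)) q (a + q * (i * (X / k))) (X / k) =
          Pool.Agent.Zk38.AP.RG r ((n : ℝ) ^ (ϑ * t / 4)) q (a + q * (i * (X / k))) (X / k) := by
        unfold goodTerms Pool.Agent.Zk38.AP.RG
        rfl
      rw [e]
      obtain ⟨g1, g2⟩ := hcon
      refine ⟨le_trans (le_of_eq ?_) g1, fun S hS hSc => ?_⟩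
      · have hl0 : Real.log n ≠ 0 := by linarith
        field_simp
      · obtain ⟨y, d, hd1, hd2, hyd⟩ := g2 S hS hSc
        refine ⟨y, d, hd1, hd2.trans ?_, hyd⟩
        rw [pow_mul]
        apply pow_le_pow_left₀ (by linarith)
        nlinarith
    unfold exceptions
    exact_mod_cast card_le_card hsub
  · have h1 : 26 * Real.log 3 ≤ 7 * Real.log 61 := by
      have h2 : Real.log ((3 : ℝ) ^ 26) ≤ Real.log ((61 : ℝ) ^ 7) := Real.log_le_log (by norm_num) (by norm_num)
      rw [Real.log_pow, Real.log_pow] at h2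
      push_cast at h2
      exact h2
    have h2 : (26 / 7 : ℝ) ≤ Real.log ((3 ^ 5 + 1) / 4) / Real.log 3 := by
      rw [le_div_iff₀ h3, show ((3 : ℝ) ^ 5 + 1) / 4 = 61 by norm_num]
      linarith
    unfold Lambda
    linarith
  · have h1 : 151 * Real.log 3 ≤ 55 * Real.log (41 / 2) := by
      have h2 : Real.log ((3 : ℝ) ^ 151) ≤ Real.log ((41 / 2 : ℝ) ^ 55) := Real.log_le_log (by norm_num) (by norm_num)
      rw [Real.log_pow, Real.log_pow] at h2
      push_cast at h2
      exact h2
    have h2 : (151 / 55 : ℝ) ≤ Real.log ((3 ^ 4 + 1) / 4) / Real.log 3 := by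
      rw [le_div_iff₀ h3, show ((3 : ℝ) ^ 4 + 1) / 4 = 41 / 2 by norm_num]
      linarith
    unfold Lambda
    linarith
  · have h1 : 1 + (131 : ℝ) / 74 ≤ Lambda 3 := Pool.Agent.K3h19.RV.lam_three
    linarith

end Pool.Agent.Results.MP_1e9cc8_nt.AlmostAllBlocks
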