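import Pool.Agent.Zk38.AP.UOpp

/-!
# Clusters of products of at most three primes in every one of Oppermann's intervals

The `k`-fold Oppermann conjecture asks for `k` primes in each of the intervals `[n² - n, n²]` and `[n², n² + n]`, for all
large `n`. Here we prove, for ALL large `n`, the theorem of Maynard and Tao for products of at most three primes in these
intervals, and even in all residue classes modulo `q ≤ n ^ 0.27`: for every `m` there is `K` such that for every set `S` of at
least `K` nonnegative integers, every arithmetic progression `a + q k`, `k ≤ H`, with `gcd (a, q) = 1` and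
`H ≥ n ^ 0.722` that is contained in `[n² - n, n² + n]` contains products of at most three primes, all of them at least
`n ^ 0.09`, with indices `x + h` for `m` elements `h` of `S` (and a common `x`). These clusters can be translated along
progressions of any prescribed length with a difference at most a power of `log n`. The same holds with `r` prime factors and
`H ≥ n ^ ϑ`, `ϑ > 2 / Λ_r`, where `Λ_r` is Richert's constant; so with any positive exponent `ϑ` if `r` is large.

Proof. The sieve of Maynard and Tao combined with Richert's weights (`R498/MT` in the starting files for quadratic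
polynomials, `Zk41/P4` for polynomials of degree at least two, by helper41), here uniformly for the polynomials `q X + a`
(`Zk38/AP`). The progressions come from Szemerédi's theorem for sifted sets (`Y677/RSZ`), which is uniform in the sifted
system.
-/

set_option autoImplicit false

namespace Pool.Agent.Results.MP_1e9cc8_nt.AlmostPrimeClusters

open Filter

/-- Richert's constant `Λ_r = 1 + log ((3 ^ r + 1) / 4) / log 3 = r + 1 - log (4 / (1 + 3 ^ (-r))) / log 3`:
`Λ_3 = 2.771...`, `Λ_4 = 3.749...`. -/
noncomputable def Lambda (r : ℕ) : ℝ := 1 + Real.log ((3 ^ r + 1) / 4) / Real.log 3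

/-- `1 ≤ k ≤ H`, and the term `a + q k` is a product of at most `r` primes (with multiplicity), all of them at least `z`. -/
def GoodIndex (r : ℕ) (z : ℝ) (q a H k : ℕ) : Prop :=
  1 ≤ k ∧ k ≤ H ∧ (a + q * k).primeFactorsList.length ≤ r ∧ ∀ p : ℕ, p.Prime → p ∣ a + q * k → z ≤ p

/-- **Theorem.** Let `2 < ϑ Λ_r` (for instance `ϑ = 0.722` and `r = 3`, or `ϑ = 0.534` and `r = 4`). For every `m` there is `K` such
that for every set `S` of at least `K` nonnegative integers and every `l` there is `B` such that for all large `n` the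
following holds for every progression `a + q, a + 2 q, …, a + H q` with `gcd (a, q) = 1`, `n² - n ≤ a`, `a + q H ≤ n² + n` and
`H ≥ n ^ ϑ`: there are `m` elements `h` of `S` and `x`, `1 ≤ d ≤ (log n) ^ B` such that all the indices `k = x + j d + h`,
`j < l`, satisfy `1 ≤ k ≤ H` and `a + q k` is a product of at most `r` primes `≥ n ^ (ϑ / 8)`. -/
theorem result :
    (∀ (r : ℕ) (ϑ : ℝ), 1 ≤ r → 2 < ϑ * Lambda r → ∀ m : ℕ, ∃ K : ℕ, ∀ S : Finset ℕ, K ≤ S.card → ∀ l : ℕ, ∃ B : ℕ,
      ∀ᶠ n : ℕ in atTop, ∀ q a H : ℕ, 0 < q → Nat.Coprime a q → n ^ 2 - n ≤ a → a + q * H ≤ n ^ 2 + n →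
        (n : ℝ) ^ ϑ ≤ H → ∃ T ⊆ S, T.card = m ∧ ∃ x d : ℕ, 1 ≤ d ∧ (d : ℝ) ≤ Real.log n ^ B ∧
          ∀ j < l, ∀ h ∈ T, GoodIndex r ((n : ℝ) ^ (ϑ / 8)) q a H (x + j * d + h)) ∧
    2 < 0.722 * Lambda 3 ∧ 2 < 0.534 * Lambda 4 := by
  classical
  have h3 : 0 < Real.log 3 := Real.log_pos (by norm_num)
  refine ⟨fun r ϑ hr h m => ?_, ?_, ?_⟩
  · obtain ⟨K, hK⟩ := Pool.Agent.Zk38.AP.oppClusters r hr ϑ h m
    refine ⟨K, fun S hS l => ?_⟩
    obtain ⟨B, hB⟩ := hK S hS l
    refine ⟨B, ?_⟩
    filter_upwards [hB] with n hn q a H hq hqa _ hsz hH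
    obtain ⟨T, hT, hTc, x, d, h0, h1, h2, h4⟩ := hn q a H hq hqa hsz hH
    refine ⟨T, hT, hTc, x, d, h1, h2, fun j hj i hi => ?_⟩
    obtain ⟨g1, g2, g3⟩ := h4 j hj i hi
    exact ⟨by omega, g1, g2, g3⟩
  · have h1 : 1 + (131 : ℝ) / 74 ≤ Lambda 3 := Pool.Agent.K3h19.RV.lam_three
    linarith
  · have h1 : 151 * Real.log 3 ≤ 55 * Real.log (41 / 2) := by
      have h2 : Real.log ((3 : ℝ) ^ 151) ≤ Real.log ((41 / 2 : ℝ) ^ 55) := Real.log_le_log (by norm_num) (by norm_num)
      rw [Real.log_pow, Real.log_pow] at h2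
      push_cast at h2
      exact h2
    have h2 : (151 / 55 : ℝ) ≤ Real.log ((3 ^ 4 + 1) / 4) / Real.log 3 := by
      rw [le_div_iff₀ h3, show ((3 : ℝ) ^ 4 + 1) / 4 = 41 / 2 by norm_num]
      linarith
    unfold Lambda
    linarith

end Pool.Agent.Results.MP_1e9cc8_nt.AlmostPrimeClusters
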