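import Pool.Agent.Zk38.AP.OppB

/-!
# Products of few primes in all residue classes in every one of Oppermann's intervals

The `k`-fold Oppermann conjecture asks for `k` primes in each of the intervals `[n² - n, n²]` and `[n², n² + n]`, for all
large `n`. Here we prove, for ALL large `n`: every arithmetic progression with coprime first term and difference `q` and
with at least `n ^ 0.722` terms that is contained in `[n² - n, n² + n]` contains the expected number (up to a constant) of
products of at most three primes, and every dense set of such terms (or of any terms without small prime factors) contains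
progressions of any length whose common difference is at most `q` times a power of `log n`. So this holds in all residue
classes modulo all `q ≤ n ^ 0.27`. For `r` prime factors the exponent `0.722` is replaced by any `ϑ > 2 / Λ_r`, where `Λ_r` is
Richert's constant, hence by any positive exponent if `r` is large.

Proof. Richert's weighted linear sieve (`Y882` in the starting files, `Zk41/P4` and `Zk48/AP` by helper41 and helper48), and
Szemerédi's theorem relative to the values without small prime factors of a polynomial with large coefficients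
(`Zk41/PY`, helper41).
-/

set_option autoImplicit false

namespace Pool.Agent.Results.MP_1e9cc8_nt.AlmostPrimesInClasses

open Filter Finset

/-- Richert's constant `Λ_r = 1 + log ((3 ^ r + 1) / 4) / log 3 = r + 1 - log (4 / (1 + 3 ^ (-r))) / log 3`:
`Λ_3 = 2.771...`, `Λ_4 = 3.749...`. -/
noncomputable def Lambda (r : ℕ) : ℝ := 1 + Real.log ((3 ^ r + 1) / 4) / Real.log 3

open Classical in
/-- The indices `1 ≤ k ≤ H` for which the term `a + q k` is a product of at most `r` primes (with multiplicity), all of them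
at least `z`. -/
noncomputable def goodTerms (r : ℕ) (z : ℝ) (q a H : ℕ) : Finset ℕ :=
  (Icc 1 H).filter (fun k => (a + q * k).primeFactorsList.length ≤ r ∧
    ∀ p : ℕ, p.Prime → p ∣ a + q * k → z ≤ p)

/-- `S` is a set of indices `1 ≤ k ≤ H` for which `a + q k` has no prime factors smaller than `z`. -/
def Rough (z : ℝ) (q a H : ℕ) (S : Finset ℕ) : Prop :=
  S ⊆ Icc 1 H ∧ ∀ k ∈ S, ∀ p : ℕ, p.Prime → p ∣ a + q * k → z ≤ p

/-- **Theorem.** Let `2 < ϑ Λ_r` (for instance `ϑ = 0.722` and `r = 3`, or `ϑ = 0.534` and `r = 4`). There is `c > 0` such that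
for all `l`, `κ, ρ > 0` there is `B` such that for all large `n` the following holds for every progression
`a + q, a + 2 q, …, a + H q` with `gcd (a, q) = 1`, `n² - n ≤ a`, `a + q H ≤ n² + n` and `H ≥ n ^ ϑ`: at least
`c (q / φ(q)) H / log n` of its terms are products of at most `r` primes `≥ n ^ (ϑ / 8)`, and every set of at least
`κ (q / φ(q)) H / log n` indices `k ≤ H` for which `a + q k` has no prime factors `< n ^ ρ` contains a progression of length
`l` with common difference at most `(log n) ^ B`. -/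
theorem result :
    (∀ (r : ℕ) (ϑ : ℝ), 1 ≤ r → 2 < ϑ * Lambda r → ∃ c : ℝ, 0 < c ∧
      ∀ (l : ℕ) (κ ρ : ℝ), 0 < κ → 0 < ρ → ∃ B : ℕ, ∀ᶠ n : ℕ in atTop, ∀ q a H : ℕ, 0 < q → Nat.Coprime a q →
        n ^ 2 - n ≤ a → a + q * H ≤ n ^ 2 + n → (n : ℝ) ^ ϑ ≤ H →
        c * (((q : ℝ) / q.totient) * (H / Real.log n)) ≤ (goodTerms r ((n : ℝ) ^ (ϑ / 8)) q a H).card ∧
        ∀ S : Finset ℕ, Rough ((n : ℝ) ^ ρ) q a H S → κ * (((q : ℝ) / q.totient) * (H / Real.log n)) ≤ S.card →
          ∃ x d : ℕ, 1 ≤ d ∧ (d : ℝ) ≤ Real.log n ^ B ∧ ∀ i < l, x + i * d ∈ S) ∧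
    2 < 0.722 * Lambda 3 ∧ 2 < 0.534 * Lambda 4 := by
  classical
  have h3 : 0 < Real.log 3 := Real.log_pos (by norm_num)
  refine ⟨fun r ϑ hr h => ?_, ?_, ?_⟩
  · obtain ⟨c, hc, hmain⟩ := Pool.Agent.Zk38.AP.oppG r hr ϑ h
    refine ⟨c, hc, fun l κ ρ hκ hρ => ?_⟩
    obtain ⟨B, hB⟩ := hmain l κ ρ hκ hρ
    refine ⟨B, ?_⟩
    filter_upwards [hB] with n hn q a H hq hqa _ hsz hH
    obtain ⟨h1, h2⟩ := hn q a H hq hqa hsz hH
    refine ⟨?_, fun S hS hSc => h2 S hS.1 hS.2 hSc⟩
    refine h1.trans (le_of_eq ?_)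
    unfold goodTerms Pool.Agent.Zk38.AP.RG
    rfl
  · have h1 : 1 + (131 : ℝ) / 74 ≤ Lambda 3 := Pool.Agent.K3h19.RV.lam_three
    linarith
  · have h1 : 151 * Real.log 3 ≤ 55 * Real.log (41 / 2) := by
      have h2 : Real.log ((3 : ℝ) ^ 151) ≤ Real.log ((41 / 2 : ℝ) ^ 55) := Real.log_le_log (by norm_num) (by norm_num)
      rw [Real.log_pow, Real.log_pow] at h2
      push_cast at h2
      exact h2
    have h2 : (151 / 55 : ℝ) ≤ Real.log ((3 ^ 4 + 1) / 4) / Real.log 3 := by
      rw [le_div_iff₀ h3, show ((3 : ℝ) ^ 4 + 1) / 4 = 41 / 2 by norm_num]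
      linarith
    unfold Lambda
    linarith

end Pool.Agent.Results.MP_1e9cc8_nt.AlmostPrimesInClasses
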