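import Pool.Agent.Zk38.Opp.C

set_option autoImplicit false

/-!
# Narrow progressions in all dense sets of primes near `n²`, for all `n` outside a sparse set

There are `δ > 0`, `c > 0` and ONE set `E` of integers with at most `C N ^ (0.612 - δ)` elements up to
`N` such that for all `n` outside `E` every interval `(A, A + X]` contained in `[n² - n, n² + n]`, of
length `X ≥ n ^ (1 - δ)`, contains at least `c X / log n` primes, and satisfies Szemerédi's theorem
relative to the primes, with narrow progressions: for all `k` and `ε > 0` there is `B` such that for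
large `n` every set of at least the proportion `ε` of the primes of `(A, A + X]` contains `k` terms of
an arithmetic progression with common difference at most `(log n) ^ B`.

Taking `(A, A + X] = (n² - n, n²]` and `(n², n² + n]`: outside `E` the `k`-fold Oppermann conjecture holds
with `≥ c n / log n` primes in both intervals.

The estimate for the number of short intervals with few primes (`Pool.Agent.Q278.KT.mainp_half`) and the
theorem on dense sets of primes in short intervals (`Pool.Agent.X58.IV.primes_ap`) are from the starting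
files.
-/

namespace Pool.Agent.Results.MP_1e9cc8_nt.DenseSubsetsOfPrimes

theorem result : ∃ c δ C : ℝ, 0 < c ∧ 0 < δ ∧ ∃ E : Set ℕ,
    (∀ N : ℕ, ((E ∩ Set.Icc 1 N).ncard : ℝ) ≤ C * (N : ℝ) ^ (0.612 - δ)) ∧
    (∀ n : ℕ, 1 ≤ n → n ∉ E → ∀ A X : ℕ, n ^ 2 - n ≤ A → A + X ≤ n ^ 2 + n →
      (n : ℝ) ^ (1 - δ) ≤ X →
      c * X / Real.log n ≤ (((Finset.Ioc A (A + X)).filter Nat.Prime).card : ℝ)) ∧
    ∀ (k : ℕ) (ε : ℝ), 0 < ε → ∃ B n₁ : ℕ, ∀ n : ℕ, n₁ ≤ n → n ∉ E →
      ∀ A X : ℕ, n ^ 2 - n ≤ A → A + X ≤ n ^ 2 + n → (n : ℝ) ^ (1 - δ) ≤ X →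
      ∀ U ⊆ (Finset.Ioc A (A + X)).filter Nat.Prime,
        ε * (((Finset.Ioc A (A + X)).filter Nat.Prime).card : ℝ) ≤ U.card →
        ∃ a d : ℕ, 1 ≤ d ∧ (d : ℝ) ≤ Real.log n ^ B ∧ ∀ j < k, a + j * d ∈ U :=
  Pool.Agent.Zk38.Opp.main

end Pool.Agent.Results.MP_1e9cc8_nt.DenseSubsetsOfPrimes
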